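import Pool.Agent.T6.H84.WheelMinor

namespace Pool.Agent.Results.MP_68998c_co.ExplicitBound

open Set Module Submodule Pool.Agent.Helper236 Pool.Agent.Helper236.Tug
open Pool.Agent.T6.H84.WheelMinor Pool.Agent.T6.H84.Wheel Pool.Agent.T6.H84.Cover

/-- the cycle matroid of the wheel exists -/
theorem exists_cycleMatroid (r : ℕ) :
    ∃ K : Matroid (Sym2 (Option (Fin r))), IsCycleMatroid (wheel r) K := by
  classical
  refine ⟨linMatroid (ZMod 2) (dv (sv (ZMod 2))) (wheel r).edgeSet (Set.toFinite _), rfl,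
    fun I hI => ?_⟩
  rw [acyclic_iff' (F := ZMod 2) I (fun e he => (wheel r).not_isDiag_of_mem_edgeSet (hI he))]
  exact and_iff_right hI

/-- Let `r ≥ 3` and let `M` be a finite loopless binary matroid with no minor isomorphic to the
cycle matroid of the wheel with `r` spokes. Then the critical exponent `c(M; 2)` is at most
`C(2 r - 3, r - 2)`. -/
theorem result (r : ℕ) (hr : 3 ≤ r) {α : Type} (M : Matroid α) (hfin : M.Finite)
    (hbin : Representable (ZMod 2) M) (hloop : M.Loopless)
    (hminor : ∀ N : Matroid α, N.IsMinor M → ∀ K : Matroid (Sym2 (Option (Fin r))),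
      IsCycleMatroid (wheel r) K → ¬ Iso N K) :
    critExpPos M 2 ≤ (Nat.choose (2 * r - 3) (r - 2) : ℕ) := by
  classical
  obtain ⟨n, rfl⟩ : ∃ n, r = n + 3 := ⟨r - 3, by omega⟩
  have e1 : 2 * (n + 3) - 3 = 2 * n + 3 := by omega
  have e2 : n + 3 - 2 = n + 1 := by omega
  rw [e1, e2]
  obtain ⟨d, v, hv⟩ := hbin
  have hrep : Rep (ZMod 2) M v := hv
  obtain ⟨K, hK⟩ := exists_cycleMatroid (n + 3)
  have hnoW : ¬ HasWheel (n + 3) (v '' M.E) := by
    intro hw
    obtain ⟨N, hN, hiso⟩ := exists_wheel_minor hrep (by omega) hw hK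
    exact hminor N hN K hK hiso
  have hEfin : (v '' M.E).Finite := M.ground_finite.image v
  set E : Finset (Fin d → ZMod 2) := hEfin.toFinset with hE
  have hEc : (E : Set (Fin d → ZMod 2)) = v '' M.E := by simp [hE]
  have h0 : (0 : Fin d → ZMod 2) ∉ v '' M.E := by
    rintro ⟨e, he, he0⟩
    have h1 : M.Indep {e} := (M.isNonloop_of_loopless he).indep
    have h2 := (hv {e} (by simpa using he)).1 h1
    rw [linearIndepOn_singleton_iff] at h2
    exact h2 he0
  have hdens : ∀ X ⊆ E, X.card ≤ Nat.choose (2 * n + 3) (n + 1) *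
      finrank (ZMod 2) (span (ZMod 2) (X : Set (Fin d → ZMod 2))) := by
    intro X hX
    have hXc : (X : Set (Fin d → ZMod 2)) ⊆ v '' M.E := by
      rw [← hEc]
      exact_mod_cast hX
    exact density n X.card _ X le_rfl (fun h => h0 (hXc h)) (fun hw => hnoW (hw.mono hXc))
  obtain ⟨f, hf⟩ := cover_functionals E _ hdens
  have hpos : 1 ≤ Nat.choose (2 * n + 3) (n + 1) := Nat.choose_pos (by omega)
  have hcard : Nat.card (ZMod 2) = 2 := by simp
  have h1 := (critExpPos_le_iff hrep _ hpos).2 ⟨f, fun e he => hf (v e) (by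
    rw [hE, Set.Finite.mem_toFinset]
    exact mem_image_of_mem v he)⟩
  rw [hcard] at h1
  exact h1

end Pool.Agent.Results.MP_68998c_co.ExplicitBound
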